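import Mathlib

set_option autoImplicit false

open Filter Topology Metric

namespace Pool.Agent.Results.MP_9ed304_an.NearCardioid

/-- `b_{n,0}(a) = a^{1/2n} - 2 √a`, with principal roots. -/
noncomputable def b (n : ℕ) (a : ℂ) : ℂ := a ^ (1 / (2 * n) : ℂ) - 2 * a ^ (1 / 2 : ℂ)

/-- `r_{n,a}(z) = z ^ n + a / z ^ n + b_{n,0}(a)`. -/
noncomputable def r (n : ℕ) (a z : ℂ) : ℂ := z ^ n + a / z ^ n + b n a

/-- The free critical value `v₋ = a^{1/2n} - 4 √a`. -/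
noncomputable def vminus (n : ℕ) (a : ℂ) : ℂ := a ^ (1 / (2 * n) : ℂ) - 4 * a ^ (1 / 2 : ℂ)

/-- The boundedness locus `M_n`: the `a ≠ 0` for which the forward orbit of `v₋` under `r_{n,a}` is
bounded (in particular it never meets the pole `0`). -/
def locus (n : ℕ) : Set ℂ :=
  {a | a ≠ 0 ∧ ∃ B : ℝ, ∀ k : ℕ, (r n a)^[k] (vminus n a) ≠ 0 ∧ ‖(r n a)^[k] (vminus n a)‖ ≤ B}

/-- The limiting cardioid `S_∞ = {(1 + e^{iθ})² / 16 : 0 ≤ θ ≤ 2π}`. -/
def cardioid : Set ℂ :=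
  {w | ∃ θ : ℝ, 0 ≤ θ ∧ θ ≤ 2 * Real.pi ∧ w = (1 + Complex.exp (θ * Complex.I)) ^ 2 / 16}

lemma unbounded {R : ℂ → ℂ} {z₀ : ℂ} {T : ℝ} (hT : 0 < T) (h0 : T ≤ ‖z₀‖)
    (h : ∀ z, T ≤ ‖z‖ → 2 * ‖z‖ ≤ ‖R z‖) : ¬ ∃ B : ℝ, ∀ k : ℕ, ‖R^[k] z₀‖ ≤ B := by
  rintro ⟨B, hB⟩
  have key : ∀ k : ℕ, 2 ^ k * T ≤ ‖R^[k] z₀‖ := by
    intro k
    induction k with
    | zero => simpa using h0
    | succ k ih =>
      rw [Function.iterate_succ_apply']
      have h1 : T ≤ ‖R^[k] z₀‖ := by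
        have : (1 : ℝ) ≤ 2 ^ k := one_le_pow₀ (by norm_num)
        nlinarith
      have := h _ h1
      rw [pow_succ]
      linarith
  obtain ⟨k, hk⟩ := pow_unbounded_of_one_lt (B / T) (by norm_num : (1 : ℝ) < 2)
  rw [div_lt_iff₀ hT] at hk
  linarith [key k, hB k]

section
variable {n : ℕ} {a : ℂ}

lemma sq_root (a : ℂ) : (a ^ (1 / 2 : ℂ)) ^ 2 = a := by
  have := Complex.cpow_nat_inv_pow a (n := 2) two_ne_zero
  simpa using this

lemma norm_root_pow (hn : n ≠ 0) (_ha : a ≠ 0) :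
    ‖a ^ (1 / (2 * n) : ℂ)‖ ^ n = ‖a ^ (1 / 2 : ℂ)‖ := by
  rw [← norm_pow, ← Complex.cpow_mul_nat]
  congr 2
  have : (n : ℂ) ≠ 0 := by exact_mod_cast hn
  field_simp

lemma norm_root_le (hn : n ≠ 0) (ha : a ≠ 0) :
    ‖a ^ (1 / (2 * n) : ℂ)‖ ≤ 1 + ‖a ^ (1 / 2 : ℂ)‖ := by
  by_contra hcon
  push Not at hcon
  have h1 := norm_root_pow hn ha
  have h2 : ‖a ^ (1 / (2 * n) : ℂ)‖ ≤ ‖a ^ (1 / (2 * n) : ℂ)‖ ^ n :=
    le_self_pow₀ (by have := norm_nonneg (a ^ (1 / 2 : ℂ)); linarith) hn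
  linarith

lemma norm_s_le (hn : n ≠ 0) (ha : a ≠ 0) :
    3 * ‖a ^ (1 / 2 : ℂ)‖ ≤ ‖vminus n a‖ + 1 := by
  have h1 := norm_root_le hn ha
  have h2 : 4 * ‖a ^ (1 / 2 : ℂ)‖ ≤ ‖vminus n a‖ + ‖a ^ (1 / (2 * n) : ℂ)‖ := by
    have h3 : 4 * a ^ (1 / 2 : ℂ) = a ^ (1 / (2 * n) : ℂ) - vminus n a := by rw [vminus]; ring
    have h4 : ‖4 * a ^ (1 / 2 : ℂ)‖ = 4 * ‖a ^ (1 / 2 : ℂ)‖ := by rw [norm_mul]; norm_num
    rw [← h4, h3]
    refine (norm_sub_le _ _).trans ?_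
    linarith
  linarith

lemma norm_b_le (hn : n ≠ 0) (ha : a ≠ 0) : ‖b n a‖ ≤ ‖vminus n a‖ + 2 := by
  have h1 := norm_root_le hn ha
  have h2 := norm_s_le hn ha
  rw [b]
  refine (norm_sub_le _ _).trans ?_
  have h4 : ‖2 * a ^ (1 / 2 : ℂ)‖ = 2 * ‖a ^ (1 / 2 : ℂ)‖ := by rw [norm_mul]; norm_num
  rw [h4]
  linarith

lemma norm_a_le (hn : n ≠ 0) (ha : a ≠ 0) : ‖a‖ ≤ ((‖vminus n a‖ + 1) / 3) ^ 2 := by
  have h2 := norm_s_le hn ha
  have h3 : ‖a‖ = ‖a ^ (1 / 2 : ℂ)‖ ^ 2 := by rw [← norm_pow, sq_root]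
  rw [h3]
  apply pow_le_pow_left₀ (norm_nonneg _)
  linarith

lemma norm_r_ge (z : ℂ) : ‖z‖ ^ n - ‖a‖ / ‖z‖ ^ n - ‖b n a‖ ≤ ‖r n a z‖ := by
  have h1 : z ^ n = r n a z - a / z ^ n - b n a := by rw [r]; ring
  have h2 : ‖z ^ n‖ ≤ ‖r n a z‖ + ‖a / z ^ n‖ + ‖b n a‖ := by
    conv_lhs => rw [h1]
    refine (norm_sub_le _ _).trans ?_
    have := norm_sub_le (r n a z) (a / z ^ n)
    linarith
  rw [norm_div, norm_pow] at h2
  linarith

lemma norm_r_ge' (z : ℂ) : ‖a‖ / ‖z‖ ^ n - ‖z‖ ^ n - ‖b n a‖ ≤ ‖r n a z‖ := by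
  have h1 : a / z ^ n = r n a z - z ^ n - b n a := by rw [r]; ring
  have h2 : ‖a / z ^ n‖ ≤ ‖r n a z‖ + ‖z ^ n‖ + ‖b n a‖ := by
    conv_lhs => rw [h1]
    refine (norm_sub_le _ _).trans ?_
    have := norm_sub_le (r n a z) (z ^ n)
    linarith
  rw [norm_div, norm_pow] at h2
  linarith

/-- escape when the critical value is outside the unit circle -/
lemma escape_outside (hn : 2 ≤ n) (ha : a ≠ 0) {δ : ℝ} (hδ : 0 < δ)
    (hN : 6 ≤ (1 + δ) ^ (n - 1)) (hv : 1 + δ ≤ ‖vminus n a‖) :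
    ¬ ∃ B : ℝ, ∀ k : ℕ, ‖(r n a)^[k] (vminus n a)‖ ≤ B := by
  set T := ‖vminus n a‖ with hT
  have hT1 : 1 < T := by linarith
  apply unbounded (T := T) (by linarith) le_rfl
  intro z hz
  have h1 := norm_r_ge (n := n) (a := a) z
  have h2 := norm_b_le (n := n) (by omega) ha
  have h3 := norm_a_le (n := n) (by omega) ha
  rw [← hT] at h2 h3
  have hz1 : 1 < ‖z‖ := by linarith
  have h4 : ‖a‖ / ‖z‖ ^ n ≤ 1 := by
    rw [div_le_one (by positivity)]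
    have h5 : ‖z‖ ^ 2 ≤ ‖z‖ ^ n := pow_le_pow_right₀ hz1.le hn
    nlinarith
  have h5 : 6 * ‖z‖ ≤ ‖z‖ ^ n := by
    have h6 : ‖z‖ ^ n = ‖z‖ ^ (n - 1) * ‖z‖ := by
      rw [← pow_succ]; congr 1; omega
    have h7 : (1 + δ) ^ (n - 1) ≤ ‖z‖ ^ (n - 1) :=
      pow_le_pow_left₀ (by linarith) (by linarith) _
    rw [h6]
    apply mul_le_mul_of_nonneg_right _ (norm_nonneg _)
    linarith
  linarith

/-- escape when the critical value is inside the unit circle -/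
lemma escape_inside (hn : 2 ≤ n) (ha : a ≠ 0) {δ η : ℝ} (hδ : 0 < δ) (hδ1 : δ < 1)
    (hη : η ≤ ‖a‖) (hN : 14 ≤ η / (1 - δ) ^ n) (hv : ‖vminus n a‖ ≤ 1 - δ)
    (hv0 : vminus n a ≠ 0) :
    ¬ ∃ B : ℝ, ∀ k : ℕ, ‖(r n a)^[k] (vminus n a)‖ ≤ B := by
  rintro ⟨B, hB⟩
  have hη0 : 0 < η := by
    by_contra hcon
    push Not at hcon
    have : η / (1 - δ) ^ n ≤ 0 := div_nonpos_of_nonpos_of_nonneg hcon (pow_nonneg (by linarith) _)
    linarith
  have h2 := norm_b_le (n := n) (by omega) ha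
  have h3 := norm_a_le (n := n) (by omega) ha
  have hv1 : 0 < ‖vminus n a‖ := norm_pos_iff.mpr hv0
  have hb : ‖b n a‖ ≤ 3 := by linarith
  have ha1 : ‖a‖ ≤ 1 := by nlinarith
  have hz1 : 10 ≤ ‖r n a (vminus n a)‖ := by
    have h4 := norm_r_ge' (n := n) (a := a) (vminus n a)
    have h5 : ‖vminus n a‖ ^ n ≤ 1 := pow_le_one₀ (norm_nonneg _) (by linarith)
    have h6 : η / (1 - δ) ^ n ≤ ‖a‖ / ‖vminus n a‖ ^ n := by
      apply div_le_div₀ (norm_nonneg _) hη (by positivity)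
      exact pow_le_pow_left₀ (norm_nonneg _) hv _
    linarith
  apply unbounded (R := r n a) (z₀ := r n a (vminus n a)) (T := 10) (by norm_num) hz1
  · intro z hz
    have h1 := norm_r_ge (n := n) (a := a) z
    have hzn : ‖z‖ ^ 2 ≤ ‖z‖ ^ n := pow_le_pow_right₀ (by linarith) hn
    have h4 : ‖a‖ / ‖z‖ ^ n ≤ 1 := by
      rw [div_le_one (by positivity)]
      nlinarith
    nlinarith
  · refine ⟨B, fun k => ?_⟩
    have := hB (k + 1)
    rwa [Function.iterate_succ_apply] at this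

lemma exp_mem_cardioid (θ : ℝ) (hθ : -Real.pi < θ) (hθ2 : θ ≤ Real.pi) :
    (1 + Complex.exp (θ * Complex.I)) ^ 2 / 16 ∈ cardioid := by
  by_cases h : 0 ≤ θ
  · exact ⟨θ, h, by linarith [Real.pi_pos], rfl⟩
  · push Not at h
    refine ⟨θ + 2 * Real.pi, by linarith, by linarith, ?_⟩
    have : Complex.exp (((θ + 2 * Real.pi : ℝ) : ℂ) * Complex.I) = Complex.exp (θ * Complex.I) := by
      have h1 := Complex.exp_periodic ((θ : ℂ) * Complex.I)
      rw [← h1]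
      congr 1
      push_cast
      ring
    rw [this]

/-- closeness to the cardioid when the critical value is near the unit circle -/
lemma near (hn : n ≠ 0) (ha : a ≠ 0) {δ η : ℝ} (hδ : 0 < δ) (hδ1 : δ ≤ 1 / 4) (hη0 : 0 < η)
    (hη : η ≤ ‖a‖) (hN1 : Real.log (1 / η) + Real.pi ≤ n)
    (hN : (Real.log (1 / η) + Real.pi) / n ≤ δ) (hv : 1 - δ < ‖vminus n a‖)
    (hv2 : ‖vminus n a‖ < 1 + δ) : ∃ w ∈ cardioid, dist a w < δ := by
  have hnpos : (0 : ℝ) < n := by exact_mod_cast Nat.pos_of_ne_zero hn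
  have h3 := norm_a_le (n := n) hn ha
  have ha1 : ‖a‖ ≤ 1 := by nlinarith [norm_nonneg (vminus n a)]
  set s : ℂ := a ^ (1 / 2 : ℂ) with hs
  set μ : ℂ := a ^ (1 / (2 * n) : ℂ) with hμ
  -- `μ` is close to `1`
  have hlog : ‖Complex.log a‖ ≤ Real.log (1 / η) + Real.pi := by
    have h4 : Complex.log a = (Real.log ‖a‖ : ℝ) + (Complex.arg a : ℝ) * Complex.I := by
      rw [Complex.log]
    rw [h4]
    refine (norm_add_le _ _).trans ?_
    rw [norm_mul, Complex.norm_I, mul_one, Complex.norm_real, Complex.norm_real]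
    have hnormpos : 0 < ‖a‖ := norm_pos_iff.mpr ha
    have h5 : ‖Real.log ‖a‖‖ ≤ Real.log (1 / η) := by
      rw [Real.norm_of_nonpos (Real.log_nonpos (norm_nonneg _) ha1), ← Real.log_inv]
      apply Real.log_le_log (by positivity)
      rw [one_div]
      exact inv_anti₀ hη0 hη
    have h6 : ‖Complex.arg a‖ ≤ Real.pi := Complex.abs_arg_le_pi a
    linarith
  have hμ1 : ‖μ - 1‖ ≤ δ := by
    rw [hμ, Complex.cpow_def_of_ne_zero ha]
    have h5 : ‖Complex.log a * (1 / (2 * n))‖ ≤ (Real.log (1 / η) + Real.pi) / (2 * n) := by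
      rw [norm_mul]
      have h6 : ‖(1 / (2 * n) : ℂ)‖ = 1 / (2 * n) := by
        rw [norm_div, norm_one, norm_mul, Complex.norm_natCast]; norm_num
      rw [h6, mul_one_div]
      gcongr
    have h6 : (Real.log (1 / η) + Real.pi) / (2 * n) ≤ 1 := by
      rw [div_le_one (by positivity)]; linarith
    refine (Complex.norm_exp_sub_one_le (h5.trans h6)).trans ?_
    have h7 : 2 * ((Real.log (1 / η) + Real.pi) / (2 * n)) = (Real.log (1 / η) + Real.pi) / n := by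
      field_simp
    linarith
  set q : ℂ := 4 * s - 1 with hq
  have hvq : vminus n a = (μ - 1) - q := by rw [vminus, hq]; ring
  have hq1 : ‖q‖ < 1 + 2 * δ := by
    have : q = (μ - 1) - vminus n a := by rw [hvq]; ring
    rw [this]
    have := norm_sub_le (μ - 1) (vminus n a)
    linarith
  have hq2 : 1 - 2 * δ < ‖q‖ := by
    have h5 : ‖vminus n a‖ ≤ ‖μ - 1‖ + ‖q‖ := by rw [hvq]; exact norm_sub_le _ _
    linarith
  have hqpos : 0 < ‖q‖ := by linarith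
  have hqne : (‖q‖ : ℂ) ≠ 0 := by exact_mod_cast hqpos.ne'
  refine ⟨_, exp_mem_cardioid (Complex.arg q) (Complex.neg_pi_lt_arg q) (Complex.arg_le_pi q), ?_⟩
  have hpol : q = ‖q‖ * Complex.exp (Complex.arg q * Complex.I) :=
    (Complex.norm_mul_exp_arg_mul_I q).symm
  set q' : ℂ := Complex.exp (Complex.arg q * Complex.I) with hq'
  have hq'n : ‖q'‖ = 1 := by rw [hq', Complex.norm_exp_ofReal_mul_I]
  have hqq : ‖q - q'‖ < 2 * δ := by
    have : q - q' = ((‖q‖ - 1 : ℝ) : ℂ) * q' := by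
      conv_lhs => rw [hpol]
      push_cast
      ring
    rw [this, norm_mul, hq'n, mul_one, Complex.norm_real, Real.norm_eq_abs, abs_lt]
    constructor <;> linarith
  have haq : a = (1 + q) ^ 2 / 16 := by
    have : a = s ^ 2 := (sq_root a).symm
    rw [this, hq]; ring
  have hdiff : a - (1 + q') ^ 2 / 16 = (q - q') * (2 + q + q') / 16 := by
    conv_lhs => rw [haq]
    ring
  rw [dist_eq_norm, hdiff, norm_div, norm_mul]
  have h8 : ‖2 + q + q'‖ ≤ 5 := by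
    refine (norm_add₃_le).trans ?_
    have : ‖(2 : ℂ)‖ = 2 := by norm_num
    rw [this, hq'n]
    linarith
  have h9 : ‖(16 : ℂ)‖ = 16 := by norm_num
  rw [h9]
  have h10 : ‖q - q'‖ * ‖2 + q + q'‖ ≤ 2 * δ * 5 :=
    mul_le_mul hqq.le h8 (norm_nonneg _) (by linarith)
  rw [div_lt_iff₀ (by norm_num)]
  linarith

end

/-- For every `ε > 0` the boundedness locus `M_n` lies in the open `ε`-neighbourhood of the limiting
cardioid for all large `n`. -/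
theorem result : ∀ ε : ℝ, 0 < ε → ∃ N : ℕ, 3 ≤ N ∧ ∀ n : ℕ, N ≤ n →
    locus n ⊆ thickening ε cardioid := by
  intro ε hε
  set δ : ℝ := min (1 / 4) ε with hδ
  have hδ0 : 0 < δ := by positivity
  have hδ1 : δ ≤ 1 / 4 := min_le_left _ _
  have hδ2 : δ ≤ ε := min_le_right _ _
  have h1 : ∀ᶠ n : ℕ in atTop, 6 ≤ (1 + δ) ^ (n - 1) := by
    have h2 : Tendsto (fun n : ℕ => (1 + δ) ^ n) atTop atTop :=
      tendsto_pow_atTop_atTop_of_one_lt (by linarith)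
    exact ((tendsto_sub_atTop_nat 1).eventually (h2.eventually_ge_atTop 6))
  have h2 : ∀ᶠ n : ℕ in atTop, 14 ≤ ε / (1 - δ) ^ n := by
    have h3 : Tendsto (fun n : ℕ => ((1 - δ)⁻¹) ^ n) atTop atTop :=
      tendsto_pow_atTop_atTop_of_one_lt (by
        rw [one_lt_inv₀ (by linarith)]; linarith)
    filter_upwards [h3.eventually_ge_atTop (14 / ε)] with n hn
    rw [inv_pow] at hn
    rw [div_eq_mul_inv]
    rw [div_le_iff₀ hε] at hn
    linarith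
  have h3 : ∀ᶠ n : ℕ in atTop, Real.log (1 / ε) + Real.pi ≤ n :=
    tendsto_natCast_atTop_atTop.eventually_ge_atTop _
  have h4 : ∀ᶠ n : ℕ in atTop, (Real.log (1 / ε) + Real.pi) / n ≤ δ := by
    have := tendsto_const_div_atTop_nhds_zero_nat (Real.log (1 / ε) + Real.pi)
    exact (this.eventually (gt_mem_nhds hδ0)).mono fun n hn => hn.le
  obtain ⟨N, hN⟩ := eventually_atTop.mp (h1.and (h2.and (h3.and h4)))
  refine ⟨max N 3, le_max_right _ _, fun n hn => ?_⟩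
  have hn3 : 3 ≤ n := (le_max_right _ _).trans hn
  obtain ⟨e1, e2, e3, e4⟩ := hN n ((le_max_left _ _).trans hn)
  rintro a ⟨ha, B, hB⟩
  rw [mem_thickening_iff]
  by_cases hη : ε ≤ ‖a‖
  · by_cases hv : 1 + δ ≤ ‖vminus n a‖
    · exact absurd ⟨B, fun k => (hB k).2⟩ (escape_outside (by omega) ha hδ0 e1 hv)
    by_cases hv2 : ‖vminus n a‖ ≤ 1 - δ
    · exact absurd ⟨B, fun k => (hB k).2⟩
        (escape_inside (by omega) ha hδ0 (by linarith) hη e2 hv2 (hB 0).1)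
    push Not at hv hv2
    obtain ⟨w, hw, hd⟩ := near (by omega) ha hδ0 hδ1 hε hη e3 e4 hv2 hv
    exact ⟨w, hw, hd.trans_le hδ2⟩
  · push Not at hη
    refine ⟨(1 + Complex.exp (Real.pi * Complex.I)) ^ 2 / 16,
      exp_mem_cardioid Real.pi (by linarith [Real.pi_pos]) le_rfl, ?_⟩
    rw [Complex.exp_pi_mul_I, dist_eq_norm]
    simpa using hη

end Pool.Agent.Results.MP_9ed304_an.NearCardioid
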